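import Pool.Agent.R602.UU.Final

/-!
# Uniform ultrafilters on singular cardinals of cofinality `ω`

The transitive models `M` of ZF (`IsZF`) are defined in `Pool.Agent.W868.Defs`, the infinite
cardinals of `M` (`InfCard`), regular and successor cardinals (`Regular`, `IsSucc`) and uniform
ultrafilters (`UniUF`) in `M` are defined in `Pool.Agent.R602.UU.Stat`, and cofinality `ω`
(`CofOmega`) in `Pool.Agent.R602.UU.Stat2`.

The model is a symmetric submodel of a generic extension, where for each `m` a subset of the
supremum of the cardinals `β_m` is added with conditions of size at most `β_m`. Here `β_0 = ℵ_ω` and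
`β_{m+1} = 2 ^ β_m`. The supports are the finite sets of indices `m`, and the automorphisms exchange
the values of the conditions.
-/

namespace Pool.Agent.Results.MP_790ce2_lc.EqualCofinalityFails

open Pool.Agent.W868 Pool.Agent.R602.UU

/-- There is a countable transitive model `M` of ZF in which all successor cardinals are regular and
there are singular cardinals `l` and `m` of cofinality `ω` such that `l` carries a uniform
ultrafilter and `m` does not. -/
theorem result : ∃ M : Set ZFSet.{0}, M.Countable ∧ IsZF M ∧
    (∀ μ κ, IsSucc M μ κ → Regular M κ) ∧
      ∃ l m, (InfCard M l ∧ ¬ Regular M l ∧ CofOmega M l ∧ ∃ D, UniUF M l D) ∧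
        InfCard M m ∧ ¬ Regular M m ∧ CofOmega M m ∧ ¬ ∃ D, UniUF M m D :=
  final2

end Pool.Agent.Results.MP_790ce2_lc.EqualCofinalityFails
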